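import Pool.Agent.Helper20.GT.Stm

/-!
# CORE: the reversal of digits in a real base
-/

set_option autoImplicit false

open Finset

namespace Pool.Agent.Helper72.GT

open Pool.Agent.Helper20.GT

/-- Greedy digits. -/
theorem digits (L : ℝ) (hL : 1 < L) (n : ℕ) (hn : 1 ≤ n) (hLn : L ≤ n) : ∀ l : ℕ, ∀ y : ℝ,
    0 ≤ y → y ≤ L ^ l → ∃ w : ℕ → ℕ, (∀ k, w k + 1 ≤ n) ∧ ∃ e : ℝ, 0 ≤ e ∧ e ≤ 1 ∧
      y = ∑ k ∈ range l, (w k : ℝ) * L ^ k + e := by
  intro l
  induction l with
  | zero =>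
    intro y h0 h1
    exact ⟨fun _ => 0, fun _ => by omega, y, h0, by rwa [pow_zero] at h1, by simp⟩
  | succ l ih =>
    intro y h0 h1
    have hl : 0 < L ^ l := by positivity
    obtain ⟨m, hm, hm0, hm1⟩ : ∃ m : ℕ, m + 1 ≤ n ∧ (m : ℝ) * L ^ l ≤ y ∧
        y ≤ ((m : ℝ) + 1) * L ^ l := by
      by_cases h : ⌊y / L ^ l⌋₊ + 1 ≤ n
      · refine ⟨⌊y / L ^ l⌋₊, h, ?_, ?_⟩
        · have := Nat.floor_le (div_nonneg h0 hl.le)
          rwa [le_div_iff₀ hl] at this
        · have := (Nat.lt_floor_add_one (y / L ^ l)).le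
          rwa [div_le_iff₀ hl] at this
      · refine ⟨n - 1, by omega, ?_, ?_⟩
        · have h2 : n - 1 ≤ ⌊y / L ^ l⌋₊ := by omega
          have h3 := Nat.floor_le (div_nonneg h0 hl.le)
          have h4 : ((n - 1 : ℕ) : ℝ) ≤ y / L ^ l := (Nat.cast_le.mpr h2).trans h3
          rwa [le_div_iff₀ hl] at h4
        · have h2 : ((n - 1 : ℕ) : ℝ) + 1 = n := by
            rw [Nat.cast_sub hn]
            push_cast
            ring
          rw [h2]
          refine h1.trans ?_
          rw [pow_succ, mul_comm]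
          exact mul_le_mul_of_nonneg_right hLn hl.le
    obtain ⟨w, hw, e, he0, he1, he⟩ := ih (y - m * L ^ l) (by linarith) (by linarith)
    refine ⟨Function.update w l m, ?_, e, he0, he1, ?_⟩
    · intro k
      by_cases hk : k = l
      · rw [hk, Function.update_self]
        exact hm
      · rw [Function.update_of_ne hk]
        exact hw k
    · rw [sum_range_succ, Function.update_self]
      have h5 : ∑ k ∈ range l, (Function.update w l m k : ℝ) * L ^ k =
          ∑ k ∈ range l, (w k : ℝ) * L ^ k := by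
        refine sum_congr rfl fun k hk => ?_
        rw [Function.update_of_ne (by have := mem_range.mp hk; omega)]
      rw [h5]
      linarith

/-- The main part of the value. -/
noncomputable def S (L : ℝ) (s : ℤ) (l j : ℕ) (w : ℕ → ℕ) : ℝ :=
  ∑ k ∈ range l, (w k : ℝ) * (L ^ (l - 1 - k) + s * (L ^ k / L ^ j))

/-- The folded digits. -/
def v (s : ℤ) (l j : ℕ) (w : ℕ → ℕ) : Fin ((l - 1 + j) / 2 + 1) → ℤ := fun k =>
  if (k : ℕ) < j then (w k : ℤ) else (w k : ℤ) + s * w (l - 1 + j - k)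

theorem S_eq {L : ℝ} (hL : 1 < L) {s : ℤ} (hs : s * s = 1) {l j : ℕ} (hj : j ≤ l) {w w' : ℕ → ℕ}
    (h : v s l j w = v s l j w') : S L s l j w = S L s l j w' := by
  have hs' : (s : ℝ) * s = 1 := by exact_mod_cast hs
  rcases Nat.eq_zero_or_pos l with rfl | hl
  · rfl
  have hv : ∀ k : ℕ, k < (l - 1 + j) / 2 + 1 →
      (if k < j then (w k : ℤ) else (w k : ℤ) + s * w (l - 1 + j - k)) =
        if k < j then (w' k : ℤ) else (w' k : ℤ) + s * w' (l - 1 + j - k) := by
    intro k hk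
    exact congrFun h ⟨k, hk⟩
  let z : ℕ → ℝ := fun k => (w k : ℝ) - w' k
  let a : ℕ → ℝ := fun k => L ^ (l - 1 - k) + s * (L ^ k / L ^ j)
  have hlow : ∀ k, k < j → z k = 0 := by
    intro k hk
    have h1 := hv k (by omega)
    rw [if_pos hk, if_pos hk] at h1
    have h2 : (w k : ℝ) = w' k := by exact_mod_cast h1
    simp only [z]
    rw [h2, sub_self]
  have hmid : ∀ k, j ≤ k → k < (l - 1 + j) / 2 + 1 → z k + s * z (l - 1 + j - k) = 0 := by
    intro k hk hk'
    have h1 := hv k hk'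
    rw [if_neg (by omega), if_neg (by omega)] at h1
    have h2 : (w k : ℝ) + s * w (l - 1 + j - k) = w' k + s * w' (l - 1 + j - k) := by
      exact_mod_cast h1
    simp only [z]
    linear_combination h2
  have hall : ∀ k, j ≤ k → k < l → z k + s * z (l - 1 + j - k) = 0 := by
    intro k hk hk'
    by_cases h1 : k < (l - 1 + j) / 2 + 1
    · exact hmid k hk h1
    · have h2 := hmid (l - 1 + j - k) (by omega) (by omega)
      have h3 : l - 1 + j - (l - 1 + j - k) = k := by omega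
      rw [h3] at h2
      linear_combination (s : ℝ) * h2 - z k * hs'
  have hT : ∑ k ∈ Ico j l, z k * a k = 0 := by
    have h1 : ∑ k ∈ Ico j l, z k * a k = ∑ k ∈ Ico j l, z (l - 1 + j - k) * (s * a k) := by
      have h2 := Finset.sum_Ico_reflect (fun k => z k * a k) j (m := l) (n := l - 1 + j) (by omega)
      have h3 : l - 1 + j + 1 - l = j := by omega
      have h4 : l - 1 + j + 1 - j = l := by omega
      rw [h3, h4] at h2
      rw [← h2]
      refine sum_congr rfl fun k hk => ?_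
      have hk' := mem_Ico.mp hk
      congr 1
      simp only [a]
      have h5 : l - 1 - (l - 1 + j - k) = k - j := by omega
      have h6 : L ^ (k - j) = L ^ k / L ^ j := by
        rw [pow_sub₀ L (by positivity) hk'.1]
        rfl
      have h7 : L ^ (l - 1 + j - k) / L ^ j = L ^ (l - 1 - k) := by
        have h8 : l - 1 + j - k = (l - 1 - k) + j := by omega
        rw [h8, pow_add, mul_div_cancel_right₀ _ (by positivity)]
      rw [h5, h6, h7]
      linear_combination (-(L ^ k / L ^ j)) * hs'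
    have h2 : ∑ k ∈ Ico j l, z k * a k + ∑ k ∈ Ico j l, z k * a k = 0 := by
      conv_lhs => rw [h1]
      conv_lhs => lhs; rw [← h1]
      rw [← sum_add_distrib]
      refine sum_eq_zero fun k hk => ?_
      have hk' := mem_Ico.mp hk
      linear_combination a k * hall k hk'.1 hk'.2
    linarith
  have hD : S L s l j w - S L s l j w' = ∑ k ∈ range l, z k * a k := by
    unfold S
    rw [← sum_sub_distrib]
    refine sum_congr rfl fun k _ => ?_
    simp only [z, a]
    ring
  rw [← Finset.sum_range_add_sum_Ico _ hj, hT, add_zero,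
    sum_eq_zero fun k hk => by rw [hlow k (mem_range.mp hk), zero_mul]] at hD
  linarith

/-- The number of cells. -/
theorem count {L : ℝ} (hL : 1 < L) {s : ℤ} (hs : s = 1 ∨ s = -1) {n : ℕ} (hn : 1 ≤ n) {l j : ℕ}
    (hj : j ≤ l) (M : ℕ) (w : ℕ → ℕ → ℕ) (hw : ∀ d k, w d k + 1 ≤ n) (V : ℕ → ℝ)
    (hV : ∀ d < M, |V d - S L s l j (w d)| ≤ 1) :
    ((range M).image fun d => ⌊V d⌋).card ≤ (2 * n - 1) ^ ((l - 1 + j) / 2 + 1) * 3 := by
  classical
  have hs' : s * s = 1 := by rcases hs with rfl | rfl <;> norm_num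
  let m := (l - 1 + j) / 2 + 1
  let W : Finset ℤ := if s = 1 then Finset.Icc 0 (2 * n - 2) else Finset.Icc (-(n - 1)) (n - 1)
  have hW : W.card = 2 * n - 1 := by
    rcases hs with rfl | rfl
    · simp only [W]
      rw [if_pos trivial, Int.card_Icc]
      omega
    · simp only [W]
      rw [if_neg (by norm_num), Int.card_Icc]
      omega
  have hvW : ∀ d k, v s l j (w d) k ∈ W := by
    intro d k
    have h1 := hw d k
    have h2 := hw d (l - 1 + j - k)
    unfold v
    rcases hs with rfl | rfl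
    · simp only [W]
      rw [if_pos trivial, Finset.mem_Icc]
      split_ifs <;> constructor <;> omega
    · simp only [W]
      rw [if_neg (by norm_num), Finset.mem_Icc]
      split_ifs <;> constructor <;> omega
  let G : (Fin m → ℤ) → ℝ := Function.extend (v s l j) (S L s l j) 0
  have hG : ∀ u, G (v s l j u) = S L s l j u := by
    intro u
    have hf : Function.FactorsThrough (S L s l j) (v s l j) := fun a b hab => S_eq hL hs' hj hab
    exact hf.extend_apply 0 u
  have hsub : ((range M).image fun d => ⌊V d⌋) ⊆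
      ((Fintype.piFinset fun _ : Fin m => W) ×ˢ (Finset.Icc (-1 : ℤ) 1)).image
        fun p => ⌊G p.1⌋ + p.2 := by
    intro c hc
    obtain ⟨d, hd, rfl⟩ := mem_image.mp hc
    have hd' := abs_le.mp (hV d (mem_range.mp hd))
    refine mem_image.mpr ⟨(v s l j (w d), ⌊V d⌋ - ⌊S L s l j (w d)⌋), ?_, ?_⟩
    · rw [mem_product, Fintype.mem_piFinset, Finset.mem_Icc]
      refine ⟨fun k => hvW d k, ?_, ?_⟩
      · have h1 : ⌊S L s l j (w d)⌋ ≤ ⌊V d + 1⌋ := Int.floor_le_floor (by linarith)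
        rw [Int.floor_add_one] at h1
        change -1 ≤ ⌊V d⌋ - ⌊S L s l j (w d)⌋
        omega
      · have h1 : ⌊V d⌋ ≤ ⌊S L s l j (w d) + 1⌋ := Int.floor_le_floor (by linarith)
        rw [Int.floor_add_one] at h1
        change ⌊V d⌋ - ⌊S L s l j (w d)⌋ ≤ 1
        omega
    · change ⌊G (v s l j (w d))⌋ + (⌊V d⌋ - ⌊S L s l j (w d)⌋) = ⌊V d⌋
      rw [hG]
      ring
  refine (card_le_card hsub).trans (card_image_le.trans ?_)
  rw [card_product, Fintype.card_piFinset_const, hW, Int.card_Icc]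
  exact le_of_eq rfl

theorem core : S_CORE := by
  intro L hL
  have hL1 : 1 < L := by linarith
  have hL0 : 0 < L := by linarith
  obtain ⟨n, hn⟩ : ∃ n : ℕ, n = ⌈L⌉₊ := ⟨_, rfl⟩
  have hLn : L ≤ n := by rw [hn]; exact Nat.le_ceil L
  have hnL : (n : ℝ) < L + 1 := by rw [hn]; exact Nat.ceil_lt_add_one hL0.le
  have hn1 : 1 ≤ n := by
    have : (0 : ℝ) < n := by linarith
    exact_mod_cast this
  obtain ⟨q, hq⟩ : ∃ q : ℝ, q = 2 * (n : ℝ) - 1 := ⟨_, rfl⟩
  have hq1 : 1 < q := by rw [hq]; linarith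
  have hqL : q < L ^ 2 := by rw [hq]; nlinarith
  have hlog : 0 < Real.log L := Real.log_pos hL1
  obtain ⟨s0, hs0⟩ : ∃ s0 : ℝ, s0 = Real.log q / (2 * Real.log L) := ⟨_, rfl⟩
  have hs0pos : 0 < s0 := by
    rw [hs0]
    have := Real.log_pos hq1
    positivity
  have hs01 : s0 < 1 := by
    rw [hs0, div_lt_one (by positivity)]
    have h1 := Real.log_lt_log (by linarith) hqL
    rw [Real.log_pow] at h1
    exact_mod_cast h1
  have hqs : q = L ^ (2 * s0) := by
    rw [Real.rpow_def_of_pos hL0, hs0]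
    have h1 : Real.log L * (2 * (Real.log q / (2 * Real.log L))) = Real.log q := by
      field_simp
    rw [h1, Real.exp_log (by linarith)]
  refine ⟨s0 * (2 - s0), 1 - s0, 3 * L ^ 3 + n * L, by nlinarith, by nlinarith, by linarith,
    by linarith, ?_, ?_⟩
  · have h1 : 1 ≤ L ^ 3 := one_le_pow₀ hL1.le
    have h2 : 0 ≤ (n : ℝ) * L := by positivity
    linarith
  intro M hM
  have hM1 : (1 : ℝ) ≤ M := by exact_mod_cast hM
  obtain ⟨a, ha, ha'⟩ := exists_nat_pow_near hM1 hL1
  obtain ⟨l, hl⟩ : ∃ l, l = a + 1 := ⟨_, rfl⟩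
  have hMl : (M : ℝ) ≤ L ^ l := by rw [hl]; exact ha'.le
  have hlM : L ^ l ≤ L * M := by
    rw [hl, pow_succ, mul_comm]
    exact mul_le_mul_of_nonneg_left ha hL0.le
  have hdig : ∀ d : ℕ, ∃ w : ℕ → ℕ, (∀ k, w k + 1 ≤ n) ∧ (d < M → ∃ e : ℝ, 0 ≤ e ∧ e ≤ 1 ∧
      (d : ℝ) = ∑ k ∈ range l, (w k : ℝ) * L ^ k + e) := by
    intro d
    by_cases hd : d < M
    · have h1 : (d : ℝ) ≤ L ^ l := (Nat.cast_le.mpr hd.le).trans hMl
      obtain ⟨w, hw, he⟩ := digits L hL1 n hn1 hLn l d (Nat.cast_nonneg d) h1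
      exact ⟨w, hw, fun _ => he⟩
    · exact ⟨fun _ => 0, fun _ => by omega, fun h => absurd h hd⟩
  choose w hw he using hdig
  have hcount : ∀ (s : ℤ), (s = 1 ∨ s = -1) → ∀ j : ℕ, L ^ j ≤ (M : ℝ) ^ (1 - s0) →
      (((range M).image fun d : ℕ => ⌊(∑ k ∈ range l, (w d k : ℝ) * L ^ (l - 1 - k)) +
        (s * (1 / L ^ j)) * (d : ℝ)⌋).card : ℝ) ≤ (3 * L ^ 3 + n * L) * (M : ℝ) ^ (s0 * (2 - s0)) := by
    intro s hs j hj
    have hMc : (M : ℝ) ^ (1 - s0) ≤ M := by
      conv_rhs => rw [← Real.rpow_one (M : ℝ)]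
      exact Real.rpow_le_rpow_of_exponent_le hM1 (by linarith)
    have hjl : j ≤ l := by
      rw [← pow_le_pow_iff_right₀ hL1]
      exact hj.trans (hMc.trans hMl)
    have hjc : (j : ℝ) ≤ l * (1 - s0) := by
      rw [← Real.rpow_le_rpow_left_iff hL1, Real.rpow_natCast]
      refine hj.trans ?_
      rw [Real.rpow_mul hL0.le, Real.rpow_natCast]
      exact Real.rpow_le_rpow (by linarith) hMl (by linarith)
    have h1 := count hL1 hs hn1 hjl M w hw
      (fun d : ℕ => (∑ k ∈ range l, (w d k : ℝ) * L ^ (l - 1 - k)) + (s * (1 / L ^ j)) * (d : ℝ)) (by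
        intro d hd
        obtain ⟨e, he0, he1, hde⟩ := he d hd
        have h2 : (∑ k ∈ range l, (w d k : ℝ) * L ^ (l - 1 - k)) + (s * (1 / L ^ j)) * (d : ℝ) -
            S L s l j (w d) = s * (1 / L ^ j) * e := by
          rw [hde, mul_add, mul_sum]
          unfold S
          have h3 : ∑ k ∈ range l, (w d k : ℝ) * (L ^ (l - 1 - k) + s * (L ^ k / L ^ j)) =
              ∑ k ∈ range l, (w d k : ℝ) * L ^ (l - 1 - k) +
                ∑ k ∈ range l, s * (1 / L ^ j) * ((w d k : ℝ) * L ^ k) := by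
            rw [← sum_add_distrib]
            refine sum_congr rfl fun k _ => ?_
            ring
          rw [h3]
          ring
        change |(∑ k ∈ range l, (w d k : ℝ) * L ^ (l - 1 - k)) + (s * (1 / L ^ j)) * (d : ℝ) -
            S L s l j (w d)| ≤ 1
        have h4 : |(s : ℝ)| = 1 := by rcases hs with rfl | rfl <;> norm_num
        have h5 : (1 : ℝ) / L ^ j ≤ 1 := by
          rw [div_le_one (by positivity)]
          exact one_le_pow₀ hL1.le
        have h6 : (0 : ℝ) ≤ 1 / L ^ j := by positivity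
        rw [h2, abs_mul, abs_mul, h4, one_mul, abs_of_nonneg h6, abs_of_nonneg he0]
        exact mul_le_one₀ h5 he0 he1)
    have h2 : (((range M).image fun d : ℕ => ⌊(∑ k ∈ range l, (w d k : ℝ) * L ^ (l - 1 - k)) +
        (s * (1 / L ^ j)) * (d : ℝ)⌋).card : ℝ) ≤ q ^ ((l - 1 + j) / 2 + 1) * 3 := by
      have h3 := (Nat.cast_le (α := ℝ)).mpr h1
      rw [Nat.cast_mul, Nat.cast_pow, Nat.cast_sub (by omega)] at h3
      push_cast at h3
      rw [hq]
      exact h3
    refine h2.trans ?_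
    have h3 : q ^ ((l - 1 + j) / 2 + 1) ≤ L ^ 3 * (M : ℝ) ^ (s0 * (2 - s0)) := by
      have e1 : q ^ ((l - 1 + j) / 2 + 1) = L ^ (2 * s0 * (((l - 1 + j) / 2 + 1 : ℕ) : ℝ)) := by
        rw [Real.rpow_mul hL0.le, ← hqs, Real.rpow_natCast]
      have e2 : (2 : ℝ) * (((l - 1 + j) / 2 + 1 : ℕ) : ℝ) ≤ l + j + 2 := by
        have : 2 * ((l - 1 + j) / 2 + 1) ≤ l + j + 2 := by omega
        exact_mod_cast this
      have e3 : 2 * s0 * (((l - 1 + j) / 2 + 1 : ℕ) : ℝ) ≤ l * (s0 * (2 - s0)) + 2 := by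
        have : s0 * (2 * (((l - 1 + j) / 2 + 1 : ℕ) : ℝ)) ≤ s0 * (l + l * (1 - s0) + 2) :=
          mul_le_mul_of_nonneg_left (e2.trans (by linarith)) hs0pos.le
        nlinarith
      rw [e1]
      refine (Real.rpow_le_rpow_of_exponent_le hL1.le e3).trans ?_
      rw [Real.rpow_add hL0, Real.rpow_mul hL0.le, Real.rpow_natCast]
      have e4 : (L ^ l) ^ (s0 * (2 - s0)) ≤ L * (M : ℝ) ^ (s0 * (2 - s0)) := by
        refine (Real.rpow_le_rpow (by positivity) hlM (by nlinarith)).trans ?_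
        rw [Real.mul_rpow hL0.le (by linarith)]
        refine mul_le_mul_of_nonneg_right ?_ (by positivity)
        conv_rhs => rw [← Real.rpow_one L]
        exact Real.rpow_le_rpow_of_exponent_le hL1.le (by nlinarith)
      have e5 : L ^ (2 : ℝ) = L ^ 2 := by
        rw [← Real.rpow_natCast]
        norm_num
      rw [e5]
      calc (L ^ l) ^ (s0 * (2 - s0)) * L ^ 2 ≤ (L * (M : ℝ) ^ (s0 * (2 - s0))) * L ^ 2 :=
            mul_le_mul_of_nonneg_right e4 (by positivity)
        _ = L ^ 3 * (M : ℝ) ^ (s0 * (2 - s0)) := by ring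
    have h4 : 0 ≤ (n : ℝ) * L * (M : ℝ) ^ (s0 * (2 - s0)) := by positivity
    nlinarith
  refine ⟨fun d => ∑ k ∈ range l, (w d k : ℝ) * L ^ (l - 1 - k), ?_, ?_⟩
  · intro d hd
    have h0 : 0 ≤ ∑ k ∈ range l, (w d k : ℝ) * L ^ (l - 1 - k) :=
      sum_nonneg fun k _ => by positivity
    rw [abs_of_nonneg h0]
    have h1 : ∑ k ∈ range l, (w d k : ℝ) * L ^ (l - 1 - k) ≤ ∑ k ∈ range l, (n : ℝ) * L ^ (l - 1 - k) := by
      refine sum_le_sum fun k _ => mul_le_mul_of_nonneg_right ?_ (by positivity)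
      have := hw d k
      exact_mod_cast (by omega : w d k ≤ n)
    have h2 : ∑ k ∈ range l, (n : ℝ) * L ^ (l - 1 - k) = n * ∑ k ∈ range l, L ^ k := by
      rw [← mul_sum, Finset.sum_range_reflect]
    have h3 : ∑ k ∈ range l, L ^ k ≤ L ^ l := by
      rw [geom_sum_eq hL1.ne']
      rw [div_le_iff₀ (by linarith)]
      have : 0 < L ^ l := by positivity
      nlinarith
    have h4 : (n : ℝ) * ∑ k ∈ range l, L ^ k ≤ n * (L * M) :=
      mul_le_mul_of_nonneg_left (h3.trans hlM) (Nat.cast_nonneg n)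
    have h5 : 0 ≤ 3 * L ^ 3 * (M : ℝ) := by positivity
    nlinarith
  · intro j hj
    have h1 := hcount 1 (Or.inl rfl) j hj
    have h2 := hcount (-1) (Or.inr rfl) j hj
    constructor
    · rw [Int.cast_one, one_mul] at h1
      exact h1
    · rw [Int.cast_neg, Int.cast_one, neg_one_mul] at h2
      exact h2

end Pool.Agent.Helper72.GT
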